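import Pool.Agent.U544.MZ.Final

/-!
# The tensor powers of the cohomology in a Müntz set determine all of them on the edge line

`X` is a smooth projective variety over a number field `K` (the case `K = ℚ` is the one of the problem),
`i` an integer, `N` the `i`-th Betti number, `χ` an Artin representation of `K`, `τ` a real number.
`L(H^i(X)^{⊗ r} ⊗ χ, s)` is an Euler product, absolutely convergent for `Re s > r i / 2 + 1`;
`H^i(X)^{⊗ r}` is a part of `H^{ri}(X^r)`.  `x_r(ε) = log |L(H^i(X)^{⊗ r} ⊗ χ, s_r + ε)| / log(1/ε)` is its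
size at the point `s_r = r i / 2 + 1 + iτ` of the edge line (`size (r * i) τ (B r) ε`); if there is a
meromorphic continuation of order `m` at `s_r` then `x_r(ε) → -m` as `ε → 0+`.

Let `S` be any set of positive integers of one parity with `∑_{l ∈ S} 1/l = ∞`: all large primes, the
large primes of a residue class, all large `l ≡ a mod m`, ….
-/

set_option autoImplicit false

open NumberField IsDedekindDomain Filter Topology Polynomial
open Pool.Agent.W353.EF (LFun)
open Pool.Agent.W353.EH (edgePoint size HasOrder)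
open Pool.Agent.W353.AT (IsArtin)
open Pool.Agent.U544.MZ

namespace Pool.Agent.Results.MP_039d94_nt.MuntzTensorPowers

/-- Let `S` be a set of positive integers, all of the parity of `e`, with divergent sum of reciprocals.

(1) *Universal relations* (no continuation is assumed).  For all `r ≥ 1` of the parity of `e`, all bounds
`N`, `n` and every `η > 0` there are finitely many `l ∈ S` and real numbers `a_l` such that for every number
field `K`, every smooth projective `X / K` of dimension `d`, every `i ≤ 2d` with `i`-th Betti number `≤ N`,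
every Artin representation `χ` of `K` of degree `≤ n` and every real `τ`,
`|x_r(ε) - ∑ a_l x_l(ε)| ≤ η` for all small `ε > 0`.

(2) If the `L(H^i(X)^{⊗ l} ⊗ χ, s)`, `l ∈ S`, continue meromorphically to the points `s_l` (or if only their
sizes there converge), then the size of `L(H^i(X)^{⊗ r} ⊗ χ, s)` at `s_r` converges for every `r ≥ 1` of
the same parity.  If they have neither a zero nor a pole at `s_l` for all `l ∈ S`, then for every `r ≥ 1`
of the same parity this limit is `0`, and `L(H^i(X)^{⊗ r} ⊗ χ, s)` has neither a zero nor a pole at `s_r`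
if it continues meromorphically to it.

(3) Let two data `(K, X, i, χ, τ)` and `(K', X', i', χ', τ')` be given (two varieties over two number
fields, or two twists of one variety at two points, …).  If `x_l(ε) - x'_l(ε) → 0` for all `l ∈ S`, then
`x_r(ε) - x'_r(ε) → 0` for all `r ≥ 1` of the same parity; if the orders of the continuations at `s_l`
and `s'_l` exist and agree for all `l ∈ S`, then for every `r ≥ 1` of the same parity the orders at
`s_r` and `s'_r` agree if they exist, and one has a limit size if the other has. -/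
theorem result (e : ℕ) (S : Set ℕ) (hS : IsMuntz e S) (r : ℕ) (hr1 : 1 ≤ r) (hr : Even r ↔ Even e) :
    (∀ (N n : ℕ) (η : ℝ), 0 < η → ∃ (Λ : Finset ℕ) (a : ℕ → ℝ), (∀ l ∈ Λ, l ∈ S) ∧
      ∀ (K : Type) [Field K] [NumberField K] (k : ℕ) (X : Set (MvPolynomial (Fin k) (𝓞 K)))
        (d i N' : ℕ), i ≤ 2 * d → N' ≤ N → ∀ (n' : ℕ), n' ≤ n →
        ∀ (χ : Representation ℂ Gal(AlgebraicClosure K/K) (Fin n' → ℂ)), IsArtin χ → ∀ (τ : ℝ)
          (B : ℕ → HeightOneSpectrum (𝓞 K) → ℂ[X]), IsPowerSystemAt X d i N' χ τ r (B r) →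
          (∀ l ∈ Λ, IsPowerSystemAt X d i N' χ τ l (B l)) →
          (∀ᶠ ε : ℝ in 𝓝[>] 0, LFun (B r) (edgePoint (r * i) τ + ε) ≠ 0) ∧
          ∀ᶠ ε : ℝ in 𝓝[>] 0,
            |size (r * i) τ (B r) ε - ∑ l ∈ Λ, a l * size (l * i) τ (B l) ε| ≤ η) ∧
    (∀ (K : Type) [Field K] [NumberField K] (k : ℕ) (X : Set (MvPolynomial (Fin k) (𝓞 K)))
      (d i N n : ℕ), i ≤ 2 * d →
      ∀ (χ : Representation ℂ Gal(AlgebraicClosure K/K) (Fin n → ℂ)), IsArtin χ → ∀ (τ : ℝ)
        (B : ℕ → HeightOneSpectrum (𝓞 K) → ℂ[X]), IsPowerSystemAt X d i N χ τ r (B r) →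
        (∀ l ∈ S, IsPowerSystemAt X d i N χ τ l (B l)) →
        ((∀ l ∈ S, (∃ m : ℤ, HasOrder (l * i) τ (B l) m) ∨
            ∃ x : ℝ, Tendsto (size (l * i) τ (B l)) (𝓝[>] 0) (𝓝 x)) →
          ∃ x : ℝ, Tendsto (size (r * i) τ (B r)) (𝓝[>] 0) (𝓝 x)) ∧
        ((∀ l ∈ S, HasOrder (l * i) τ (B l) 0) →
          Tendsto (size (r * i) τ (B r)) (𝓝[>] 0) (𝓝 0) ∧
          ∀ m : ℤ, HasOrder (r * i) τ (B r) m → m = 0)) ∧
    (∀ (K : Type) [Field K] [NumberField K] (k : ℕ) (X : Set (MvPolynomial (Fin k) (𝓞 K)))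
      (d i N n : ℕ), i ≤ 2 * d →
      ∀ (χ : Representation ℂ Gal(AlgebraicClosure K/K) (Fin n → ℂ)), IsArtin χ → ∀ (τ : ℝ)
        (B : ℕ → HeightOneSpectrum (𝓞 K) → ℂ[X]), IsPowerSystemAt X d i N χ τ r (B r) →
        (∀ l ∈ S, IsPowerSystemAt X d i N χ τ l (B l)) →
      ∀ (K' : Type) [Field K'] [NumberField K'] (k' : ℕ)
        (X' : Set (MvPolynomial (Fin k') (𝓞 K'))) (d' i' N' n' : ℕ), i' ≤ 2 * d' →
      ∀ (χ' : Representation ℂ Gal(AlgebraicClosure K'/K') (Fin n' → ℂ)), IsArtin χ' →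
        ∀ (τ' : ℝ) (B' : ℕ → HeightOneSpectrum (𝓞 K') → ℂ[X]),
        IsPowerSystemAt X' d' i' N' χ' τ' r (B' r) →
        (∀ l ∈ S, IsPowerSystemAt X' d' i' N' χ' τ' l (B' l)) →
        ((∀ l ∈ S, Tendsto (fun ε => size (l * i) τ (B l) ε - size (l * i') τ' (B' l) ε)
            (𝓝[>] 0) (𝓝 0)) →
          Tendsto (fun ε => size (r * i) τ (B r) ε - size (r * i') τ' (B' r) ε)
            (𝓝[>] 0) (𝓝 0)) ∧
        ((∀ l ∈ S, ∃ m : ℤ, HasOrder (l * i) τ (B l) m ∧ HasOrder (l * i') τ' (B' l) m) →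
          ∃ x : ℝ, Tendsto (size (r * i) τ (B r)) (𝓝[>] 0) (𝓝 x) ∧
            Tendsto (size (r * i') τ' (B' r)) (𝓝[>] 0) (𝓝 x) ∧
            ∀ m m' : ℤ, HasOrder (r * i) τ (B r) m → HasOrder (r * i') τ' (B' r) m' →
              m = m')) := by
  refine ⟨fun N n η hη => ?_, ?_, ?_⟩
  · obtain ⟨Λ, a, hΛ, ha⟩ := universal hS hr1 hr N n hη
    refine ⟨Λ, a, hΛ, fun K _ _ k X d i N' hi hN n' hn χ hχ τ B hBr hB =>
      ⟨nonvanishing hi χ hχ τ hBr, ha hi hN hn χ hχ τ B hBr hB⟩⟩
  · intro K _ _ k X d i N n hi χ hχ τ B hBr hB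
    have hcv : (∀ l ∈ S, (∃ m : ℤ, HasOrder (l * i) τ (B l) m) ∨
            ∃ x : ℝ, Tendsto (size (l * i) τ (B l)) (𝓝[>] 0) (𝓝 x)) →
          ∃ x : ℝ, Tendsto (size (r * i) τ (B r)) (𝓝[>] 0) (𝓝 x) := fun h =>
      converge hS hr1 hr hi χ hχ τ B hBr hB fun l hl => by
        rcases h l hl with ⟨m, hm⟩ | hx
        · exact ⟨_, size_of_order_at (nonvanishing hi χ hχ τ (hB l hl)) hm⟩
        · exact hx
    refine ⟨hcv, fun h => ?_⟩
    have h0 : Tendsto (size (r * i) τ (B r)) (𝓝[>] 0) (𝓝 0) := by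
      rw [Metric.tendsto_nhds]
      intro η hη
      obtain ⟨Λ, a, hΛ, ha⟩ := universal hS hr1 hr N n (η := η / 2) (by positivity)
      have h1 := ha hi le_rfl le_rfl χ hχ τ B hBr fun l hl => hB l (hΛ l hl)
      have h2 : Tendsto (fun ε => ∑ l ∈ Λ, a l * size (l * i) τ (B l) ε) (𝓝[>] 0) (𝓝 0) := by
        have h4 := tendsto_finsetSum (f := fun l ε => a l * size (l * i) τ (B l) ε)
          (a := fun l => a l * (-((0 : ℤ) : ℝ))) Λ fun l hl =>
            (size_of_order_at (nonvanishing hi χ hχ τ (hB l (hΛ l hl)))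
              (h l (hΛ l hl))).const_mul (a l)
        simpa using h4
      filter_upwards [h1, (Metric.tendsto_nhds.1 h2) (η / 2) (by positivity)] with ε h3 h4
      rw [Real.dist_eq, sub_zero] at h4 ⊢
      rw [abs_le] at h3
      rw [abs_lt] at h4 ⊢
      constructor <;> linarith [h3.1, h3.2, h4.1, h4.2]
    refine ⟨h0, fun m hm => ?_⟩
    have h1 := tendsto_nhds_unique h0 (size_of_order_at (nonvanishing hi χ hχ τ hBr) hm)
    have h2 : (m : ℝ) = 0 := by linarith
    exact_mod_cast h2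
  · intro K _ _ k X d i N n hi χ hχ τ B hBr hB K' _ _ k' X' d' i' N' n' hi' χ' hχ' τ' B' hBr' hB'
    have htr := transfer hS hr1 hr hi χ hχ τ B hBr hB hi' χ' hχ' τ' B' hBr' hB'
    refine ⟨htr, fun h => ?_⟩
    have hnz := fun l (hl : l ∈ S) => nonvanishing hi χ hχ τ (hB l hl)
    have hnz' := fun l (hl : l ∈ S) => nonvanishing hi' χ' hχ' τ' (hB' l hl)
    have h1 := htr fun l hl => by
      obtain ⟨m, hm, hm'⟩ := h l hl
      have h2 := (size_of_order_at (hnz l hl) hm).sub (size_of_order_at (hnz' l hl) hm')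
      rwa [sub_self] at h2
    obtain ⟨x, hx⟩ := converge hS hr1 hr hi χ hχ τ B hBr hB fun l hl => by
      obtain ⟨m, hm, -⟩ := h l hl
      exact ⟨_, size_of_order_at (hnz l hl) hm⟩
    have hx' : Tendsto (size (r * i') τ' (B' r)) (𝓝[>] 0) (𝓝 x) := by
      have h3 := hx.sub h1
      rw [sub_zero] at h3
      refine h3.congr fun ε => ?_
      ring
    refine ⟨x, hx, hx', fun m m' hm hm' => ?_⟩
    have h4 := tendsto_nhds_unique hx (size_of_order_at (nonvanishing hi χ hχ τ hBr) hm)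
    have h5 := tendsto_nhds_unique hx' (size_of_order_at (nonvanishing hi' χ' hχ' τ' hBr') hm')
    have h6 : (m : ℝ) = m' := by linarith
    exact_mod_cast h6

end Pool.Agent.Results.MP_039d94_nt.MuntzTensorPowers
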